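import Mathlib

/-! Helper file for `MP_7cf8a2_an`: two-sided fixed points of substitutions and the numbers
`v(i)` (stable coordinate of the broken line). -/

open Set Filter Topology

namespace Pool.Agent.Q7.RZ

/-- `u` is a two-sided fixed point of the substitution `σ`, where the image of the letter `u m`
starts at the position `Λ m`. -/
structure IsFixedBy {k : ℕ} (σ : Fin k → List (Fin k)) (u : ℤ → Fin k) (Λ : ℤ → ℤ) : Prop where
  zero : Λ 0 = 0
  succ : ∀ m, Λ (m + 1) = Λ m + (σ (u m)).length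
  img : ∀ m (j : ℕ) (hj : j < (σ (u m)).length), u (Λ m + j) = (σ (u m))[j]

/-- The sum of the weights of the letters `0, …, i - 1`, with sign. -/
noncomputable def val {k : ℕ} (w : Fin k → ℝ) (u : ℤ → Fin k) (i : ℤ) : ℝ :=
  ∑ a ∈ Finset.Ico 0 i, w (u a) - ∑ a ∈ Finset.Ico i 0, w (u a)

/-- The digit: the weight of the prefix of length `j` of `σ a`. -/
noncomputable def D {k : ℕ} (w : Fin k → ℝ) (σ : Fin k → List (Fin k)) (a : Fin k) (j : ℕ) : ℝ :=
  (((σ a).take j).map w).sum

section
variable {k : ℕ} {σ : Fin k → List (Fin k)} {u : ℤ → Fin k} {Λ : ℤ → ℤ} {w : Fin k → ℝ} {r : ℝ}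

lemma val_zero : val w u 0 = 0 := by simp [val]

lemma val_succ (i : ℤ) : val w u (i + 1) = val w u i + w (u i) := by
  unfold val
  rcases lt_or_ge i 0 with h | h
  · have h1 : Finset.Ico 0 (i + 1) = ∅ := Finset.Ico_eq_empty (by omega)
    have h2 : Finset.Ico 0 i = ∅ := Finset.Ico_eq_empty (by omega)
    have h3 : Finset.Ico i 0 = insert i (Finset.Ico (i + 1) 0) := by
      ext a; simp only [Finset.mem_Ico, Finset.mem_insert]; omega
    rw [h1, h2, h3, Finset.sum_insert (by simp)]
    simp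
  · have h1 : Finset.Ico (i + 1) 0 = ∅ := Finset.Ico_eq_empty (by omega)
    have h2 : Finset.Ico i 0 = ∅ := Finset.Ico_eq_empty (by omega)
    have h3 : Finset.Ico 0 (i + 1) = insert i (Finset.Ico 0 i) := by
      ext a; simp only [Finset.mem_Ico, Finset.mem_insert]; omega
    rw [h1, h2, h3, Finset.sum_insert (by simp)]
    simp only [Finset.sum_empty, sub_zero]
    ring

lemma D_succ (a : Fin k) {j : ℕ} (hj : j < (σ a).length) :
    D w σ a (j + 1) = D w σ a j + w ((σ a)[j]) := by
  unfold D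
  rw [List.take_add_one, List.getElem?_eq_getElem hj, List.map_append, List.sum_append]
  simp

lemma val_img (h : IsFixedBy σ u Λ) (m : ℤ) {j : ℕ} (hj : j ≤ (σ (u m)).length) :
    val w u (Λ m + j) = val w u (Λ m) + D w σ (u m) j := by
  induction j with
  | zero => simp [D]
  | succ j ih =>
    have hj' : j < (σ (u m)).length := hj
    rw [D_succ _ hj', ← add_assoc, ← ih hj'.le, ← h.img m j hj']
    push_cast
    rw [← add_assoc, val_succ]

lemma val_Lam (h : IsFixedBy σ u Λ) (hr : ∀ a, D w σ a (σ a).length = r * w a) (m : ℤ) :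
    val w u (Λ m) = r * val w u m := by
  have key : ∀ m, val w u (Λ (m + 1)) - r * val w u (m + 1) = val w u (Λ m) - r * val w u m := by
    intro m
    rw [h.succ, val_img h m le_rfl, hr, val_succ]; ring
  have h0 : ∀ m : ℤ, val w u (Λ m) - r * val w u m = 0 := by
    intro m
    induction m using Int.induction_on with
    | zero => rw [h.zero, val_zero]; ring
    | succ i ih => rw [key]; exact ih
    | pred i ih =>
      rw [← key, sub_add_cancel]; exact ih
  linarith [h0 m]

lemma val_eq (h : IsFixedBy σ u Λ) (hr : ∀ a, D w σ a (σ a).length = r * w a) (m : ℤ) {j : ℕ}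
    (hj : j ≤ (σ (u m)).length) :
    val w u (Λ m + j) = r * val w u m + D w σ (u m) j := by
  rw [val_img h m hj, val_Lam h hr]

/-- Every position is `Λ m + j`; for `i ≥ 0` with `0 ≤ m`, `2 m ≤ i`. -/
lemma cover_nonneg (h : IsFixedBy σ u Λ) (h2 : ∀ a, 2 ≤ (σ a).length) (i : ℕ) :
    ∃ (m : ℤ) (j : ℕ), j < (σ (u m)).length ∧ (i : ℤ) = Λ m + j ∧ 0 ≤ m ∧ 2 * m + j ≤ i := by
  induction i with
  | zero =>
    refine ⟨0, 0, by have := h2 (u 0); omega, by simp [h.zero], le_rfl, by simp⟩
  | succ i ih =>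
    obtain ⟨m, j, hj, he, hm, hb⟩ := ih
    by_cases hj' : j + 1 < (σ (u m)).length
    · exact ⟨m, j + 1, hj', by push_cast; omega, hm, by push_cast; omega⟩
    · have h3 := h2 (u m)
      have h4 := h.succ m
      refine ⟨m + 1, 0, by have := h2 (u (m + 1)); omega, by push_cast; omega, by omega, ?_⟩
      push_cast; omega

lemma cover_neg (h : IsFixedBy σ u Λ) (h2 : ∀ a, 2 ≤ (σ a).length) (i : ℕ) :
    ∃ (m : ℤ) (j : ℕ), j < (σ (u m)).length ∧ (-1 - i : ℤ) = Λ m + j ∧ m ≤ -1 ∧
      (-1 - i : ℤ) ≤ 2 * (m + 1) - ((σ (u m)).length - j) := by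
  induction i with
  | zero =>
    have h3 := h2 (u (-1))
    have h4 := h.succ (-1)
    have h5 := h.zero
    norm_num at h4
    refine ⟨-1, (σ (u (-1))).length - 1, by omega, ?_, le_rfl, ?_⟩
    · push_cast [Nat.cast_sub (show 1 ≤ (σ (u (-1))).length by omega)]; omega
    · push_cast [Nat.cast_sub (show 1 ≤ (σ (u (-1))).length by omega)]; omega
  | succ i ih =>
    obtain ⟨m, j, hj, he, hm, hb⟩ := ih
    rcases Nat.eq_zero_or_pos j with hj0 | hj0
    · subst hj0
      have h3 := h2 (u (m - 1))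
      have h3' := h2 (u m)
      have h4 := h.succ (m - 1)
      rw [sub_add_cancel] at h4
      refine ⟨m - 1, (σ (u (m - 1))).length - 1, by omega, ?_, by omega, ?_⟩
      · push_cast [Nat.cast_sub (show 1 ≤ (σ (u (m - 1))).length by omega)]
        push_cast at he; omega
      · push_cast [Nat.cast_sub (show 1 ≤ (σ (u (m - 1))).length by omega)]
        push_cast at he hb; omega
    · refine ⟨m, j - 1, by omega, ?_, hm, ?_⟩
      · push_cast [Nat.cast_sub (show 1 ≤ j by omega)]; omega
      · push_cast [Nat.cast_sub (show 1 ≤ j by omega)]; omega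

lemma cover (h : IsFixedBy σ u Λ) (h2 : ∀ a, 2 ≤ (σ a).length) (i : ℤ) :
    ∃ (m : ℤ) (j : ℕ), j < (σ (u m)).length ∧ i = Λ m + j := by
  rcases le_or_gt 0 i with hi | hi
  · obtain ⟨m, j, hj, he, _⟩ := cover_nonneg h h2 i.toNat
    exact ⟨m, j, hj, by omega⟩
  · obtain ⟨m, j, hj, he, _⟩ := cover_neg h h2 (-1 - i).toNat
    exact ⟨m, j, hj, by omega⟩

/-- Invariance: a property of `v 0` and `v (-1)` which is preserved by the maps `r x + D` holds for
all `v i`. -/
lemma all_val (h : IsFixedBy σ u Λ) (hr : ∀ a, D w σ a (σ a).length = r * w a)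
    (h2 : ∀ a, 2 ≤ (σ a).length) {P : ℝ → Prop} (h0 : P (val w u 0)) (h1 : P (val w u (-1)))
    (hP : ∀ (a : Fin k) (j : ℕ) (x : ℝ), j < (σ a).length → P x → P (r * x + D w σ a j)) (i : ℤ) :
    P (val w u i) := by
  have key : ∀ n : ℕ, ∀ i : ℤ, i.natAbs = n → P (val w u i) := by
    intro n
    induction n using Nat.strong_induction_on with
    | _ n ih =>
      intro i hi
      by_cases hi0 : i = 0
      · rw [hi0]; exact h0
      by_cases hi1 : i = -1
      · rw [hi1]; exact h1
      rcases le_or_gt 0 i with hpos | hneg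
      · obtain ⟨m, j, hj, he, hm, hb⟩ := cover_nonneg h h2 i.toNat
        have he' : i = Λ m + j := by omega
        rw [he', val_eq h hr m hj.le]
        apply hP _ _ _ hj
        apply ih m.natAbs (by omega) m rfl
      · obtain ⟨m, j, hj, he, hm, hb⟩ := cover_neg h h2 (-1 - i).toNat
        have he' : i = Λ m + j := by omega
        rw [he', val_eq h hr m hj.le]
        apply hP _ _ _ hj
        apply ih m.natAbs (by omega) m rfl
  exact key _ i rfl

/-- The last letter. -/
lemma last_letter (h : IsFixedBy σ u Λ) (h2 : ∀ a, 2 ≤ (σ a).length) :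
    ∃ hj : (σ (u (-1))).length - 1 < (σ (u (-1))).length,
      u (-1) = (σ (u (-1)))[(σ (u (-1))).length - 1] := by
  have h3 := h2 (u (-1))
  have h4 := h.succ (-1)
  have h5 := h.zero
  norm_num at h4
  refine ⟨by omega, ?_⟩
  have h6 := h.img (-1) ((σ (u (-1))).length - 1) (by omega)
  rw [← h6]
  congr 1
  push_cast [Nat.cast_sub (show 1 ≤ (σ (u (-1))).length by omega)]; omega

end

/-! ### Frontiers -/

lemma closure_congr {A B U : Set ℝ} (hU : IsOpen U) (h : A ∩ U = B ∩ U) :
    closure A ∩ U = closure B ∩ U := by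
  have key : ∀ A B : Set ℝ, A ∩ U = B ∩ U → closure A ∩ U ⊆ closure B ∩ U := by
    intro A B h x hx
    refine ⟨?_, hx.2⟩
    rw [mem_closure_iff_frequently]
    have h1 := mem_closure_iff_frequently.1 hx.1
    refine (h1.and_eventually (hU.mem_nhds hx.2)).mono fun y hy => ?_
    have : y ∈ A ∩ U := hy
    rw [h] at this
    exact this.1
  exact Subset.antisymm (key A B h) (key B A h.symm)

lemma frontier_congr {A B U : Set ℝ} (hU : IsOpen U) (h : A ∩ U = B ∩ U) {x : ℝ} (hx : x ∈ U)
    (hxA : x ∈ frontier A) : x ∈ frontier B := by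
  rw [frontier_eq_closure_inter_closure] at hxA ⊢
  have h' : Aᶜ ∩ U = Bᶜ ∩ U := by
    ext y
    constructor
    · rintro ⟨h1, h2⟩
      refine ⟨fun hB => h1 ?_, h2⟩
      have : y ∈ B ∩ U := ⟨hB, h2⟩
      rw [← h] at this; exact this.1
    · rintro ⟨h1, h2⟩
      refine ⟨fun hA => h1 ?_, h2⟩
      have : y ∈ A ∩ U := ⟨hA, h2⟩
      rw [h] at this; exact this.1
  have h1 := closure_congr hU h
  have h2 := closure_congr hU h'
  constructor
  · have : x ∈ closure A ∩ U := ⟨hxA.1, hx⟩
    rw [h1] at this; exact this.1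
  · have : x ∈ closure Aᶜ ∩ U := ⟨hxA.2, hx⟩
    rw [h2] at this; exact this.1

/-- The map `x ↦ r x + t` as a homeomorphism. -/
noncomputable def aff (r : ℝ) (hr : r ≠ 0) (t : ℝ) : ℝ ≃ₜ ℝ :=
  (Homeomorph.mulLeft₀ r hr).trans (Homeomorph.addRight t)

@[simp] lemma aff_apply (r : ℝ) (hr : r ≠ 0) (t x : ℝ) : aff r hr t x = r * x + t := rfl

end Pool.Agent.Q7.RZ
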