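import Pool.Agent.Q7.RZ.Core

/-! Definitions for `MP_7cf8a2_an`: unimodular irreducible Pisot substitutions and their Rauzy
fractals. -/

open Set Filter Topology Polynomial

namespace Pool.Agent.Q7.RZ

/-- The incidence matrix of the substitution `σ`: the entry `i, j` is the number of occurrences of
the letter `i` in the word `σ j`. -/
def incidence {k : ℕ} (σ : Fin k → List (Fin k)) : Matrix (Fin k) (Fin k) ℤ :=
  fun i j => ((σ j).count i : ℤ)

/-- The reverse substitution: every `σ a` is read backwards. -/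
def rev {k : ℕ} (σ : Fin k → List (Fin k)) : Fin k → List (Fin k) := fun a => (σ a).reverse

/-- `σ` is a unimodular irreducible Pisot substitution with dominant eigenvalue `lam`: the
incidence matrix has determinant `±1` and characteristic polynomial irreducible over `ℚ`, `lam > 1`
is a root of it, and all other complex roots have modulus less than one. -/
structure IsUnimodularPisot {k : ℕ} (σ : Fin k → List (Fin k)) (lam : ℝ) : Prop where
  det : |(incidence σ).det| = 1
  irr : Irreducible ((incidence σ).map (Int.cast : ℤ → ℚ)).charpoly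
  one_lt : 1 < lam
  root : ((incidence σ).map (Int.cast : ℤ → ℝ)).charpoly.IsRoot lam
  conj : ∀ z : ℂ, ((incidence σ).map (Int.cast : ℤ → ℂ)).charpoly.IsRoot z → z ≠ lam → ‖z‖ < 1

/-- `u` is a two-sided fixed point of `σ`: the concatenation `… σ(u₋₁) . σ(u₀) σ(u₁) …` is `u`,
with the image of the letter `u m` at the positions `Λ m, …, Λ (m + 1) - 1` and `Λ 0 = 0`. -/
def IsFixed {k : ℕ} (σ : Fin k → List (Fin k)) (u : ℤ → Fin k) : Prop :=
  ∃ Λ : ℤ → ℤ, IsFixedBy σ u Λ

/-- The broken line: `L n = ∑_{i=0}^{n} e_{u i}` for `n ≥ 0` and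
`L n = - ∑_{i=n-1}^{-1} e_{u i}` for `n < 0`. -/
noncomputable def line {k : ℕ} (u : ℤ → Fin k) (n : ℤ) : Fin k → ℝ :=
  if 0 ≤ n then ∑ i ∈ Finset.Icc 0 n, Pi.single (u i) 1
  else -∑ i ∈ Finset.Icc (n - 1) (-1), Pi.single (u i) 1

/-- The eigenspace `E^u` of the eigenvalue `lam`. -/
noncomputable def Eu {k : ℕ} (M : Matrix (Fin k) (Fin k) ℤ) (lam : ℝ) :
    Submodule ℝ (Fin k → ℝ) :=
  LinearMap.ker (Matrix.toLin' (M.map (Int.cast : ℤ → ℝ) - lam • 1))

/-- The space `E^s`: the range of `M - lam`, which for a simple eigenvalue `lam` is the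
`M`-invariant complement of the eigenline (the sum of the other generalised eigenspaces). -/
noncomputable def Es {k : ℕ} (M : Matrix (Fin k) (Fin k) ℤ) (lam : ℝ) :
    Submodule ℝ (Fin k → ℝ) :=
  LinearMap.range (Matrix.toLin' (M.map (Int.cast : ℤ → ℝ) - lam • 1))

/-- The Rauzy fractal of `u`: the closure in `E^s` of the set of the projections of the `L n`; the
projection of `x` along `E^u` is the `y ∈ E^s` with `x - y ∈ E^u`. -/
def rauzy {k : ℕ} (M : Matrix (Fin k) (Fin k) ℤ) (lam : ℝ) (u : ℤ → Fin k) : Set (Es M lam) :=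
  closure {y | ∃ n : ℤ, line u n - (y : Fin k → ℝ) ∈ Eu M lam}

end Pool.Agent.Q7.RZ
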