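import Pool.Agent.Q7.RZ.Core

/-! Existence of two-sided fixed points of substitutions. -/

namespace Pool.Agent.Q7.RZ

section
variable {k : ℕ} (τ : Fin k → List (Fin k)) (c : Fin k)

/-- The iterates of the letter `c`. -/
def W : ℕ → List (Fin k)
  | 0 => [c]
  | n + 1 => (W n).flatMap τ

/-- The limit word. -/
def fw (i : ℕ) : Fin k := ((W τ c i)[i]?).getD c

/-- Its prefixes. -/
def pw (m : ℕ) : List (Fin k) := (List.range m).map (fw τ c)

/-- The positions. -/
def Pp (m : ℕ) : ℕ := ((pw τ c m).flatMap τ).length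

variable {τ} {c}

lemma flatMap_prefix {l₁ l₂ : List (Fin k)} (h : l₁ <+: l₂) : l₁.flatMap τ <+: l₂.flatMap τ := by
  obtain ⟨t, rfl⟩ := h
  rw [List.flatMap_append]
  exact List.prefix_append _ _

lemma W_prefix (hc : [c] <+: τ c) (n : ℕ) : W τ c n <+: W τ c (n + 1) := by
  induction n with
  | zero => simpa [W] using hc
  | succ n ih => exact flatMap_prefix ih

lemma W_mono (hc : [c] <+: τ c) {m n : ℕ} (h : m ≤ n) : W τ c m <+: W τ c n := by
  induction n, h using Nat.le_induction with
  | base => exact List.prefix_rfl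
  | succ n _ ih => exact ih.trans (W_prefix hc n)

lemma flatMap_len (h2 : ∀ a, 2 ≤ (τ a).length) (l : List (Fin k)) :
    2 * l.length ≤ (l.flatMap τ).length := by
  induction l with
  | nil => simp
  | cons a l ih =>
    rw [List.flatMap_cons, List.length_append, List.length_cons]
    have := h2 a
    omega

lemma W_len (h2 : ∀ a, 2 ≤ (τ a).length) (n : ℕ) : n < (W τ c n).length := by
  induction n with
  | zero => simp [W]
  | succ n ih =>
    have := flatMap_len h2 (W τ c n)
    show n + 1 < ((W τ c n).flatMap τ).length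
    omega

lemma prefix_get {l₁ l₂ : List (Fin k)} (h : l₁ <+: l₂) {i : ℕ} (hi : i < l₁.length) :
    l₂[i]? = l₁[i]? := by
  obtain ⟨t, rfl⟩ := h
  rw [List.getElem?_append_left hi]

lemma W_get (hc : [c] <+: τ c) (h2 : ∀ a, 2 ≤ (τ a).length) {n i : ℕ}
    (hi : i < (W τ c n).length) : (W τ c n)[i]? = some (fw τ c i) := by
  have h1 : (W τ c i)[i]? = some (fw τ c i) := by
    unfold fw
    rw [List.getElem?_eq_getElem (W_len h2 i)]
    rfl
  rcases le_total n i with h | h
  · rw [← h1, prefix_get (W_mono hc h) hi]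
  · rw [← h1, prefix_get (W_mono hc h) (W_len h2 i)]

lemma pw_prefix (hc : [c] <+: τ c) (h2 : ∀ a, 2 ≤ (τ a).length) (m : ℕ) :
    pw τ c m <+: W τ c m := by
  rw [List.prefix_iff_eq_take]
  apply List.ext_getElem?
  intro i
  rcases lt_or_ge i m with h | h
  · rw [List.getElem?_take_of_lt (by simpa [pw] using h), W_get hc h2 (h.trans (W_len h2 m))]
    simp [pw, h]
  · rw [List.getElem?_eq_none (by simpa [pw] using h), List.getElem?_eq_none (by
      rw [List.length_take]; simp [pw]; omega)]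

lemma Pp_zero : Pp τ c 0 = 0 := by simp [Pp, pw]

lemma pw_succ (m : ℕ) : pw τ c (m + 1) = pw τ c m ++ [fw τ c m] := by
  simp [pw, List.range_succ]

lemma Pp_succ (m : ℕ) : Pp τ c (m + 1) = Pp τ c m + (τ (fw τ c m)).length := by
  unfold Pp
  rw [pw_succ, List.flatMap_append]
  simp

lemma Pp_img (hc : [c] <+: τ c) (h2 : ∀ a, 2 ≤ (τ a).length) (m : ℕ) {j : ℕ}
    (hj : j < (τ (fw τ c m)).length) : fw τ c (Pp τ c m + j) = (τ (fw τ c m))[j] := by
  have h1 : (pw τ c (m + 1)).flatMap τ <+: W τ c (m + 1 + 1) := flatMap_prefix (pw_prefix hc h2 _)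
  have h3 : (pw τ c (m + 1)).flatMap τ = (pw τ c m).flatMap τ ++ τ (fw τ c m) := by
    rw [pw_succ, List.flatMap_append]; simp
  have h4 : Pp τ c m + j < ((pw τ c (m + 1)).flatMap τ).length := by
    rw [h3, List.length_append]; unfold Pp; omega
  have h5 := prefix_get h1 h4
  rw [W_get hc h2 (h4.trans_le h1.length_le), h3, List.getElem?_append_right (by unfold Pp; omega)]
    at h5
  have h6 : Pp τ c m + j - ((pw τ c m).flatMap τ).length = j := by unfold Pp; omega
  rw [h6, List.getElem?_eq_getElem hj] at h5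
  exact Option.some_injective _ h5

end

/-- Existence of a two-sided fixed point. -/
theorem exists_fixed {k : ℕ} (σ : Fin k → List (Fin k)) (h2 : ∀ a, 2 ≤ (σ a).length) (c d : Fin k)
    (hc : [c] <+: σ c) (hd : [d] <+: (σ d).reverse) :
    ∃ (u : ℤ → Fin k) (Λ : ℤ → ℤ), IsFixedBy σ u Λ := by
  set τ : Fin k → List (Fin k) := fun a => (σ a).reverse with hτ
  have h2' : ∀ a, 2 ≤ (τ a).length := fun a => by rw [hτ]; simpa using h2 a
  refine ⟨fun i => if 0 ≤ i then fw σ c i.toNat else fw τ d (-1 - i).toNat,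
    fun m => if 0 ≤ m then (Pp σ c m.toNat : ℤ) else -(Pp τ d (-m).toNat : ℤ), ?_, ?_, ?_⟩
  · simp [Pp_zero]
  · intro m
    rcases le_or_gt 0 m with hm | hm
    · obtain ⟨n, rfl⟩ := Int.eq_ofNat_of_zero_le hm
      have e : ((n : ℤ) + 1).toNat = n + 1 := by omega
      simp only [show (0 : ℤ) ≤ (n : ℤ) + 1 by omega, hm, if_true, e, Int.toNat_natCast, Pp_succ]
      push_cast; rfl
    · obtain ⟨n, hn⟩ := Int.eq_ofNat_of_zero_le (show 0 ≤ -1 - m by omega)
      have hm' : m = -1 - n := by omega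
      subst hm'
      have e1 : (-(-1 - (n : ℤ))).toNat = n + 1 := by omega
      have e2 : (-1 - (-1 - (n : ℤ))).toNat = n := by omega
      simp only [show ¬ (0 : ℤ) ≤ -1 - (n : ℤ) by omega, if_false, e1, e2, Pp_succ]
      rcases Nat.eq_zero_or_pos n with h0 | h0
      · subst h0
        simp [Pp_zero, hτ]
      · have e3 : (-(-1 - (n : ℤ) + 1)).toNat = n := by omega
        simp only [show ¬ (0 : ℤ) ≤ -1 - (n : ℤ) + 1 by omega, if_false, e3]
        rw [hτ]
        push_cast
        simp only [List.length_reverse]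
        ring
  · intro m j hj
    rcases le_or_gt 0 m with hm | hm
    · obtain ⟨n, rfl⟩ := Int.eq_ofNat_of_zero_le hm
      simp only [hm, if_true, Int.toNat_natCast] at hj ⊢
      have e : ((Pp σ c n : ℤ) + (j : ℤ)).toNat = Pp σ c n + j := by omega
      simp only [show (0 : ℤ) ≤ (Pp σ c n : ℤ) + (j : ℤ) by omega, if_true, e]
      exact Pp_img hc h2 n hj
    · obtain ⟨n, hn⟩ := Int.eq_ofNat_of_zero_le (show 0 ≤ -1 - m by omega)
      have hm' : m = -1 - n := by omega
      subst hm'
      have e1 : (-(-1 - (n : ℤ))).toNat = n + 1 := by omega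
      have e2 : (-1 - (-1 - (n : ℤ))).toNat = n := by omega
      simp only [show ¬ (0 : ℤ) ≤ -1 - (n : ℤ) by omega, if_false, e1, e2, Pp_succ] at hj ⊢
      have hl : (τ (fw τ d n)).length = (σ (fw τ d n)).length := by rw [hτ]; simp
      have hj' : (σ (fw τ d n)).length - 1 - j < (τ (fw τ d n)).length := by omega
      have key := Pp_img hd h2' n hj'
      have e3 : ¬ (0 : ℤ) ≤ -((Pp τ d n + (τ (fw τ d n)).length : ℕ) : ℤ) + (j : ℤ) := by
        push_cast; omega
      have e4 : (-1 - (-((Pp τ d n + (τ (fw τ d n)).length : ℕ) : ℤ) + (j : ℤ))).toNat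
          = Pp τ d n + ((σ (fw τ d n)).length - 1 - j) := by
        push_cast; omega
      simp only [e3, if_false, e4]
      rw [key]
      simp only [hτ, List.getElem_reverse]
      congr 1
      simp only [hτ] at hj
      omega

end Pool.Agent.Q7.RZ
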