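import Pool.Agent.Q7.RZ.Sub
import Pool.Agent.Q7.RZ.Exist
import Pool.Agent.Q7.RZ.Defs

/-! The final assembly. -/

open Set Filter Topology Polynomial

namespace Pool.Agent.Q7.RZ

/-- The dominant eigenvalue. -/
noncomputable def la : ℝ := (7 + 3 * √5) / 2

lemma inc_sg : incidence sg = !![5, 3; 3, 2] := by
  ext i j; fin_cases i <;> fin_cases j <;> rfl

lemma rev_sg : rev sg = sr := by
  funext a; fin_cases a <;> rfl

lemma inc_rev : incidence (rev sg) = incidence sg := by
  rw [rev_sg]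
  ext i j; fin_cases i <;> fin_cases j <;> rfl

lemma char_sg {K : Type*} [Field K] [CharZero K] :
    ((incidence sg).map (Int.cast : ℤ → K)).charpoly = X ^ 2 - C 7 * X + C 1 := by
  rw [inc_sg, Matrix.charpoly_fin_two]
  congr 1
  · congr 1
    congr 1
    congr 1
    simp [Matrix.trace, Fin.sum_univ_two]; norm_num
  · congr 1
    rw [Matrix.det_fin_two]
    simp; norm_num

lemma no_root (x : ℚ) : x ^ 2 - 7 * x + 1 ≠ 0 := by
  intro h
  have h1 : ((2 * x - 7) / 3) ^ 2 = 5 := by linear_combination (4 / 9) * h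
  have h2 : ((((2 * x - 7) / 3 : ℚ)) : ℝ) ^ 2 = 5 := by exact_mod_cast h1
  have h3 : √5 = |((((2 * x - 7) / 3 : ℚ)) : ℝ)| := by
    rw [← h2, Real.sqrt_sq_eq_abs]
  have h4 : Irrational (√5) := by
    have := Nat.Prime.irrational_sqrt (show Nat.Prime 5 by norm_num)
    exact_mod_cast this
  apply h4
  refine ⟨|(2 * x - 7) / 3|, ?_⟩
  rw [h3]
  push_cast
  rfl

lemma pisot_sg : IsUnimodularPisot sg la := by
  have h5 := s5
  have hlo := s5_lo
  have hhi := s5_hi
  refine ⟨?_, ?_, ?_, ?_, ?_⟩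
  · rw [inc_sg, Matrix.det_fin_two]; simp
  · rw [char_sg]
    have hm : (X ^ 2 - C 7 * X + C 1 : ℚ[X]).Monic := by monicity!
    have hd : (X ^ 2 - C 7 * X + C 1 : ℚ[X]).natDegree = 2 := by compute_degree!
    rw [hm.irreducible_iff_roots_eq_zero_of_degree_le_three (by rw [hd]) (by rw [hd]; norm_num)]
    rw [Multiset.eq_zero_iff_forall_notMem]
    intro x hx
    rw [mem_roots hm.ne_zero, IsRoot.def] at hx
    apply no_root x
    simpa using hx
  · unfold la; linarith
  · rw [char_sg, IsRoot.def]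
    simp only [eval_add, eval_sub, eval_mul, eval_pow, eval_X, eval_C]
    unfold la
    linear_combination (9 / 4) * h5
  · intro z hz hne
    rw [char_sg, IsRoot.def] at hz
    simp only [eval_add, eval_sub, eval_mul, eval_pow, eval_X, eval_C] at hz
    have h1 : (z - (la : ℂ)) * (z - (rr : ℂ)) = 0 := by
      have h2 : (la : ℂ) + (rr : ℂ) = 7 := by
        rw [← Complex.ofReal_add]; unfold la rr; norm_cast; ring
      have h3 : (la : ℂ) * (rr : ℂ) = 1 := by
        rw [← Complex.ofReal_mul]; unfold la rr; norm_cast; linear_combination (-9 / 4) * h5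
      linear_combination hz - z * h2 + h3
    rcases mul_eq_zero.1 h1 with h | h
    · exact absurd (sub_eq_zero.1 h) hne
    · rw [sub_eq_zero.1 h, Complex.norm_real, Real.norm_eq_abs, abs_of_pos rr_pos]
      have := rr_lt
      linarith

/-- The functional. -/
noncomputable def ell : (Fin 2 → ℝ) →ₗ[ℝ] ℝ :=
  LinearMap.proj 0 - ph • LinearMap.proj 1

lemma ell_apply (x : Fin 2 → ℝ) : ell x = x 0 - ph * x 1 := by simp [ell]

lemma ell_single (a : Fin 2) : ell (Pi.single a 1) = wt a := by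
  rw [ell_apply]
  fin_cases a <;> simp [wt]

/-- The matrix `M - lam`. -/
lemma mat_apply (x : Fin 2 → ℝ) :
    Matrix.toLin' ((incidence sg).map (Int.cast : ℤ → ℝ) - la • 1) x
      = ![(5 - la) * x 0 + 3 * x 1, 3 * x 0 + (2 - la) * x 1] := by
  rw [Matrix.toLin'_apply, inc_sg]
  ext i
  fin_cases i <;> simp [Matrix.mulVec, dotProduct, Fin.sum_univ_two, Matrix.sub_apply]

lemma mem_Eu (x : Fin 2 → ℝ) : x ∈ Eu (incidence sg) la ↔ ell x = 0 := by
  have h5 := s5
  unfold Eu
  rw [LinearMap.mem_ker, mat_apply, ell_apply]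
  constructor
  · intro h
    have h1 := congrFun h 1
    simp at h1
    unfold la at h1
    unfold ph
    linear_combination (1 / 3) * h1
  · intro h
    unfold ph at h
    ext i
    fin_cases i
    · simp
      unfold la
      linear_combination (3 / 2 - 3 * √5 / 2) * h - 3 / 4 * x 1 * h5
    · simp
      unfold la
      linear_combination 3 * h

lemma ell_inj {y : Fin 2 → ℝ} (hy : y ∈ Es (incidence sg) la) (h : ell y = 0) : y = 0 := by
  have h5 := s5
  obtain ⟨x, hx⟩ := hy
  rw [mat_apply] at hx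
  have h0 := congrFun hx 0
  have h1 := congrFun hx 1
  simp at h0 h1
  rw [ell_apply] at h
  have h2 : ph * y 0 + y 1 = 0 := by
    rw [← h0, ← h1]
    unfold ph la
    linear_combination (-3 / 4) * x 0 * h5
  have h3 : (1 + ph * ph) * y 0 = 0 := by linear_combination h + ph * h2
  have h4 : y 0 = 0 := by
    rcases mul_eq_zero.1 h3 with h | h
    · nlinarith [mul_self_nonneg ph]
    · exact h
  rw [h4, mul_zero, zero_add] at h2
  ext i; fin_cases i
  · exact h4
  · exact h2

lemma ell_surj (t : ℝ) : ∃ y ∈ Es (incidence sg) la, ell y = t := by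
  have h5 := s5
  have hlo := s5_lo
  refine ⟨_, ⟨![-(t * √5) / 15, 0], rfl⟩, ?_⟩
  rw [mat_apply, ell_apply]
  simp
  unfold ph la
  linear_combination (t / 5) * h5

/-- The coordinate on `E^s`. -/
noncomputable def ee : Es (incidence sg) la ≃L[ℝ] ℝ :=
  (LinearEquiv.ofBijective (ell.domRestrict (Es (incidence sg) la)) ⟨by
    rw [← LinearMap.ker_eq_bot, LinearMap.ker_eq_bot']
    intro y hy
    exact Subtype.ext (ell_inj y.2 hy), fun t => by
    obtain ⟨y, hy, h⟩ := ell_surj t
    exact ⟨⟨y, hy⟩, h⟩⟩).toContinuousLinearEquiv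

lemma ee_apply (y : Es (incidence sg) la) : ee y = ell y := rfl

lemma ell_line (u : ℤ → Fin 2) (n : ℤ) :
    ell (line u n) = if 0 ≤ n then val wt u (n + 1) else val wt u (n - 1) := by
  unfold line val
  split_ifs with h
  · have h1 : Finset.Ico (n + 1) 0 = ∅ := Finset.Ico_eq_empty (by omega)
    have h2 : Finset.Ico 0 (n + 1) = Finset.Icc 0 n := by
      ext a; simp only [Finset.mem_Ico, Finset.mem_Icc]; omega
    rw [h1, h2, map_sum]
    simp [ell_single]
  · have h1 : Finset.Ico 0 (n - 1) = ∅ := Finset.Ico_eq_empty (by omega)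
    have h2 : Finset.Ico (n - 1) 0 = Finset.Icc (n - 1) (-1) := by
      ext a; simp only [Finset.mem_Ico, Finset.mem_Icc]; omega
    rw [h1, h2, map_neg, map_sum]
    simp [ell_single]

lemma image_set (u : ℤ → Fin 2) :
    ee '' {y | ∃ n : ℤ, line u n - (y : Fin 2 → ℝ) ∈ Eu (incidence sg) la} = Vp u := by
  ext t
  constructor
  · rintro ⟨y, ⟨n, hn⟩, rfl⟩
    rw [mem_Eu, map_sub, sub_eq_zero, ell_line] at hn
    rw [ee_apply, ← hn]
    split_ifs with h
    · exact ⟨n + 1, by constructor <;> omega, rfl⟩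
    · exact ⟨n - 1, by constructor <;> omega, rfl⟩
  · rintro ⟨i, ⟨hi0, hi1⟩, rfl⟩
    refine ⟨ee.symm (val wt u i), ?_, ee.apply_symm_apply _⟩
    have h1 : ell (ee.symm (val wt u i) : Fin 2 → ℝ) = val wt u i := by
      rw [← ee_apply]; exact ee.apply_symm_apply _
    rcases lt_or_ge 0 i with h | h
    · refine ⟨i - 1, ?_⟩
      rw [mem_Eu, map_sub, ell_line, h1, if_pos (by omega), sub_add_cancel, sub_self]
    · refine ⟨i + 1, ?_⟩
      rw [mem_Eu, map_sub, ell_line, h1, if_neg (by omega), add_sub_cancel_right, sub_self]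

lemma image_rauzy (u : ℤ → Fin 2) : ee '' rauzy (incidence sg) la u = closure (Vp u) := by
  unfold rauzy
  rw [← image_set u]
  exact ee.toHomeomorph.image_closure _

lemma image_front (s : Set (Es (incidence sg) la)) :
    ee '' frontier s = frontier (ee '' s) := ee.toHomeomorph.image_frontier s

lemma dim_big {u : ℤ → Fin 2} (hu : IsFixed sg u) :
    1 / 4 ≤ dimH (frontier (rauzy (incidence sg) la u)) := by
  obtain ⟨Λ, h⟩ := hu
  rw [← ContinuousLinearEquiv.dimH_image ee, image_front, image_rauzy]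
  exact dimH_frontier h

lemma dim_small {u v : ℤ → Fin 2} (hu : IsFixed sg u) (hv : IsFixed sr v) :
    dimH (frontier (rauzy (incidence sg) la u ∩ rauzy (incidence sg) la v)) = 0 := by
  obtain ⟨Λ, h⟩ := hu
  obtain ⟨Λ', h'⟩ := hv
  rw [← ContinuousLinearEquiv.dimH_image ee, image_front, image_inter ee.injective, image_rauzy,
    image_rauzy]
  refine Set.Subsingleton.dimH_zero ?_
  have h1 : frontier (closure (Vp u) ∩ closure (Vp v)) ⊆ {0} := by
    refine (isClosed_closure.inter isClosed_closure).frontier_subset.trans ?_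
    rintro x ⟨hx1, hx2⟩
    have h2 : closure (Vp u) ⊆ Ici 0 := closure_minimal (by
      rintro _ ⟨i, _, rfl⟩; exact (val_bd h i).1) isClosed_Ici
    have h3 : closure (Vp v) ⊆ Iic 0 := closure_minimal (by
      rintro _ ⟨i, _, rfl⟩; exact val_nonpos h' i) isClosed_Iic
    exact le_antisymm (h3 hx2) (h2 hx1)
  exact subsingleton_singleton.anti h1

lemma exists_sg : ∃ u, IsFixed sg u := by
  obtain ⟨u, Λ, h⟩ := exists_fixed sg len_sg 0 1 ⟨[0, 0, 0, 0, 1, 1, 1], rfl⟩ ⟨[1, 0, 0, 0], rfl⟩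
  exact ⟨u, Λ, h⟩

lemma exists_sr : ∃ u, IsFixed sr u := by
  obtain ⟨u, Λ, h⟩ := exists_fixed sr len_sr 1 0 ⟨[1, 0, 0, 0], rfl⟩ ⟨[0, 0, 0, 0, 1, 1, 1], rfl⟩
  exact ⟨u, Λ, h⟩

end Pool.Agent.Q7.RZ
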