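import Pool.Agent.Q7.RZ.Core

/-! The substitution `0 ↦ 00000111`, `1 ↦ 00011`. -/

open Set Filter Topology

namespace Pool.Agent.Q7.RZ

/-- The substitution. -/
def sg : Fin 2 → List (Fin 2)
  | 0 => [0, 0, 0, 0, 0, 1, 1, 1]
  | 1 => [0, 0, 0, 1, 1]

/-- The reversed substitution. -/
def sr : Fin 2 → List (Fin 2)
  | 0 => [1, 1, 1, 0, 0, 0, 0, 0]
  | 1 => [1, 1, 0, 0, 0]

/-- The golden ratio. -/
noncomputable def ph : ℝ := (1 + √5) / 2

/-- The weights. -/
noncomputable def wt : Fin 2 → ℝ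
  | 0 => 1
  | 1 => -ph

/-- The contraction ratio. -/
noncomputable def rr : ℝ := (7 - 3 * √5) / 2

lemma s5 : √5 * √5 = 5 := Real.mul_self_sqrt (by norm_num)
lemma s5_lo : (2.236 : ℝ) < √5 := by
  rw [Real.lt_sqrt (by norm_num)]; norm_num
lemma s5_hi : √5 < (2.237 : ℝ) := by
  rw [Real.sqrt_lt' (by norm_num)]; norm_num

lemma rr_pos : 0 < rr := by have := s5_hi; unfold rr; linarith
lemma rr_lt : rr < 0.146 := by have := s5_lo; unfold rr; linarith
lemma rr_gt : (0.1444 : ℝ) < rr := by have := s5_hi; unfold rr; linarith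
lemma ph_lo : (1.618 : ℝ) ≤ ph := by have := s5_lo; unfold ph; linarith
lemma ph_hi : ph < (1.6185 : ℝ) := by have := s5_hi; unfold ph; linarith

lemma len_sg (a : Fin 2) : 2 ≤ (sg a).length := by fin_cases a <;> simp [sg]
lemma len_sr (a : Fin 2) : 2 ≤ (sr a).length := by fin_cases a <;> simp [sr]

lemma rel_sg (a : Fin 2) : D wt sg a (sg a).length = rr * wt a := by
  have := s5
  fin_cases a
  · simp [D, sg, wt, rr, ph]; ring
  · simp [D, sg, wt, rr, ph]; nlinarith

lemma rel_sr (a : Fin 2) : D wt sr a (sr a).length = rr * wt a := by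
  have := s5
  fin_cases a
  · simp [D, sr, wt, rr, ph]; ring
  · simp [D, sr, wt, rr, ph]; nlinarith

lemma D_bd (a : Fin 2) {j : ℕ} (hj : j < (sg a).length) : 0 ≤ D wt sg a j ∧ D wt sg a j ≤ 5 := by
  have h1 := ph_lo
  have h2 := ph_hi
  fin_cases a
  · have hj' : j < 8 := hj
    interval_cases j <;> simp [D, sg, wt] <;>
      first | (constructor <;> linarith) | linarith
  · have hj' : j < 5 := hj
    interval_cases j <;> simp [D, sg, wt] <;>
      first | (constructor <;> linarith) | linarith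

lemma D_bd' (a : Fin 2) {j : ℕ} (hj : j < (sr a).length) : D wt sr a j ≤ 0 := by
  have h1 := ph_lo
  have h2 := ph_hi
  fin_cases a
  · have hj' : j < 8 := hj
    interval_cases j <;> simp [D, sr, wt] <;> linarith
  · have hj' : j < 5 := hj
    interval_cases j <;> simp [D, sr, wt] <;> linarith

section
variable {u : ℤ → Fin 2} {Λ : ℤ → ℤ}

lemma last_sg (h : IsFixedBy sg u Λ) : u (-1) = 1 := by
  obtain ⟨hj, h1⟩ := last_letter h len_sg
  generalize u (-1) = a at hj h1
  fin_cases a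
  · simp [sg] at h1
  · rfl

lemma last_sr (h : IsFixedBy sr u Λ) : u (-1) = 0 := by
  obtain ⟨hj, h1⟩ := last_letter h len_sr
  generalize u (-1) = a at hj h1
  fin_cases a
  · rfl
  · simp [sr] at h1

lemma val_neg_one_sg (h : IsFixedBy sg u Λ) : val wt u (-1) = ph := by
  have h1 := val_succ (w := wt) (u := u) (-1)
  rw [last_sg h] at h1
  norm_num [val_zero] at h1
  simp only [wt] at h1
  linarith

lemma val_neg_one_sr (h : IsFixedBy sr u Λ) : val wt u (-1) = -1 := by
  have h1 := val_succ (w := wt) (u := u) (-1)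
  rw [last_sr h] at h1
  norm_num [val_zero] at h1
  simp only [wt] at h1
  linarith

lemma val_bd (h : IsFixedBy sg u Λ) (i : ℤ) : 0 ≤ val wt u i ∧ val wt u i ≤ 6 := by
  have h1 := rr_pos
  have h2 := rr_lt
  refine all_val h rel_sg len_sg (P := fun x => 0 ≤ x ∧ x ≤ 6) ?_ ?_ ?_ i
  · rw [val_zero]; norm_num
  · rw [val_neg_one_sg h]
    have := ph_lo; have := ph_hi
    constructor <;> linarith
  · intro a j x hj hx
    have h3 := D_bd a hj
    constructor
    · nlinarith [hx.1]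
    · nlinarith [hx.2, hx.1]

lemma val_nonpos (h : IsFixedBy sr u Λ) (i : ℤ) : val wt u i ≤ 0 := by
  have h1 := rr_pos
  refine all_val h rel_sr len_sr (P := fun x => x ≤ 0) ?_ ?_ ?_ i
  · rw [val_zero]
  · rw [val_neg_one_sr h]; norm_num
  · intro a j x hj hx
    have h3 := D_bd' a hj
    nlinarith

/-- The values at the indices other than `0`, `-1`. -/
def Vp (u : ℤ → Fin 2) : Set ℝ := val wt u '' {i | i ≠ 0 ∧ i ≠ -1}

/-- The values at the letters `0`. -/
def V1 (u : ℤ → Fin 2) : Set ℝ := val wt u '' {i | u i = 0}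

/-- The map `x ↦ r x + t`. -/
noncomputable def g (t : ℝ) : ℝ ≃ₜ ℝ := aff rr rr_pos.ne' t

lemma rval_bd (h : IsFixedBy sg u Λ) (i : ℤ) : 0 ≤ rr * val wt u i ∧ rr * val wt u i < 0.877 := by
  have h1 := rr_pos
  have h2 := rr_lt
  have h3 := val_bd h i
  constructor
  · exact mul_nonneg h1.le h3.1
  · nlinarith [h3.1, h3.2]

lemma F3 (h : IsFixedBy sg u Λ) : Vp u ∩ Ioi 4.9 = (g 5 '' V1 u) ∩ Ioi 4.9 := by
  have hp1 := ph_lo
  have hp2 := ph_hi
  ext x
  constructor
  · rintro ⟨⟨i, _, rfl⟩, hx⟩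
    refine ⟨?_, hx⟩
    obtain ⟨m, j, hj, he⟩ := cover h len_sg i
    have hv := val_eq h rel_sg m hj.le
    rw [← he] at hv
    have hb := rval_bd h m
    have hx' : (4.9 : ℝ) < val wt u i := hx
    generalize hum : u m = a at hv hj
    fin_cases a
    · have hj' : j < 8 := hj
      refine ⟨val wt u m, ⟨m, hum, rfl⟩, ?_⟩
      interval_cases j <;> simp [D, sg, wt] at hv <;>
        first
        | (exfalso; linarith)
        | (show rr * val wt u m + 5 = _; linarith)
    · have hj' : j < 5 := hj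
      exfalso
      interval_cases j <;> simp [D, sg, wt] at hv <;> linarith
  · rintro ⟨⟨_, ⟨m, hm, rfl⟩, rfl⟩, hx⟩
    refine ⟨?_, hx⟩
    have hm' : u m = 0 := hm
    have hv := val_eq h rel_sg m (j := 5) (by rw [hm']; simp [sg])
    rw [hm'] at hv
    have hb := rval_bd h m
    have hv' : val wt u (Λ m + (5 : ℕ)) = rr * val wt u m + 5 := by
      rw [hv]; simp [D, sg, wt]; norm_num
    refine ⟨Λ m + (5 : ℕ), ⟨?_, ?_⟩, ?_⟩
    · intro h0
      rw [h0, val_zero] at hv'
      linarith [hb.1]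
    · intro h0
      rw [h0, val_neg_one_sg h] at hv'
      linarith [hb.1]
    · rw [hv']; rfl

lemma F1 (h : IsFixedBy sg u Λ) : V1 u ∩ Ioo 2.9 3.95 = (g 3 '' V1 u) ∩ Ioo 2.9 3.95 := by
  ext x
  constructor
  · rintro ⟨⟨i, hi, rfl⟩, hx⟩
    refine ⟨?_, hx⟩
    obtain ⟨m, j, hj, he⟩ := cover h len_sg i
    have hv := val_eq h rel_sg m hj.le
    rw [← he] at hv
    have hl := h.img m j hj
    have hi' : u i = 0 := hi
    rw [← he, hi'] at hl
    have hb := rval_bd h m
    have hx1 : (2.9 : ℝ) < val wt u i := hx.1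
    have hx2 : val wt u i < 3.95 := hx.2
    generalize hum : u m = a at hv hj hl
    fin_cases a
    · have hj' : j < 8 := hj
      refine ⟨val wt u m, ⟨m, hum, rfl⟩, ?_⟩
      interval_cases j <;> simp [sg] at hl <;> simp [D, sg, wt] at hv <;>
        first
        | (exfalso; linarith)
        | (show rr * val wt u m + 3 = _; linarith)
    · have hj' : j < 5 := hj
      exfalso
      interval_cases j <;> simp [sg] at hl <;> simp [D, sg, wt] at hv <;> linarith
  · rintro ⟨⟨_, ⟨m, hm, rfl⟩, rfl⟩, hx⟩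
    refine ⟨?_, hx⟩
    have hm' : u m = 0 := hm
    have hv := val_eq h rel_sg m (j := 3) (by rw [hm']; simp [sg])
    have hl := h.img m 3 (by rw [hm']; simp [sg])
    rw [hm'] at hv
    have hv' : val wt u (Λ m + (3 : ℕ)) = rr * val wt u m + 3 := by
      rw [hv]; simp [D, sg, wt]; norm_num
    refine ⟨Λ m + (3 : ℕ), ?_, hv'⟩
    show u (Λ m + (3 : ℕ)) = 0
    rw [hl]
    simp only [hm', sg]
    rfl

lemma F2 (h : IsFixedBy sg u Λ) : V1 u ∩ Ioi 3.95 = (g 4 '' V1 u) ∩ Ioi 3.95 := by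
  ext x
  constructor
  · rintro ⟨⟨i, hi, rfl⟩, hx⟩
    refine ⟨?_, hx⟩
    obtain ⟨m, j, hj, he⟩ := cover h len_sg i
    have hv := val_eq h rel_sg m hj.le
    rw [← he] at hv
    have hl := h.img m j hj
    have hi' : u i = 0 := hi
    rw [← he, hi'] at hl
    have hb := rval_bd h m
    have hx1 : (3.95 : ℝ) < val wt u i := hx
    generalize hum : u m = a at hv hj hl
    fin_cases a
    · have hj' : j < 8 := hj
      refine ⟨val wt u m, ⟨m, hum, rfl⟩, ?_⟩
      interval_cases j <;> simp [sg] at hl <;> simp [D, sg, wt] at hv <;>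
        first
        | (exfalso; linarith)
        | (show rr * val wt u m + 4 = _; linarith)
    · have hj' : j < 5 := hj
      exfalso
      interval_cases j <;> simp [sg] at hl <;> simp [D, sg, wt] at hv <;> linarith
  · rintro ⟨⟨_, ⟨m, hm, rfl⟩, rfl⟩, hx⟩
    refine ⟨?_, hx⟩
    have hm' : u m = 0 := hm
    have hv := val_eq h rel_sg m (j := 4) (by rw [hm']; simp [sg])
    have hl := h.img m 4 (by rw [hm']; simp [sg])
    rw [hm'] at hv
    have hv' : val wt u (Λ m + (4 : ℕ)) = rr * val wt u m + 4 := by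
      rw [hv]; simp [D, sg, wt]; norm_num
    refine ⟨Λ m + (4 : ℕ), ?_, hv'⟩
    show u (Λ m + (4 : ℕ)) = 0
    rw [hl]
    simp only [hm', sg]
    rfl

lemma zero_letter (h : IsFixedBy sg u Λ) : u 0 = 0 := by
  have h1 := h.img 0 0 (by have := len_sg (u 0); omega)
  have h2 : ∀ (a : Fin 2) (h : 0 < (sg a).length), (sg a)[0] = 0 := by
    intro a h
    fin_cases a <;> rfl
  rw [h.zero] at h1
  have h3 : u ((0 : ℤ) + ((0 : ℕ) : ℤ)) = u 0 := by simp
  rw [h3] at h1
  rw [h1]
  exact h2 _ _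

lemma R1_bd (h : IsFixedBy sg u Λ) {x : ℝ} (hx : x ∈ closure (V1 u)) : 0 ≤ x ∧ x ≤ 6 := by
  have h1 : closure (V1 u) ⊆ Icc 0 6 := by
    apply closure_minimal _ isClosed_Icc
    rintro _ ⟨i, _, rfl⟩
    exact val_bd h i
  exact h1 hx

/-- The frontier of `R₁` is invariant under the maps `g 3`, `g 4`, and `g 5` maps it into the
frontier of the closure of `Vp`. -/
lemma frontier_step (h : IsFixedBy sg u Λ) {x : ℝ} (hx : x ∈ frontier (closure (V1 u))) :
    g 3 x ∈ frontier (closure (V1 u)) ∧ g 4 x ∈ frontier (closure (V1 u)) ∧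
      g 5 x ∈ frontier (closure (Vp u)) := by
  have hr1 := rr_pos
  have hr2 := rr_lt
  have hb := R1_bd h (isClosed_closure.frontier_subset hx)
  have hrx1 : 0 ≤ rr * x := mul_nonneg hr1.le hb.1
  have hrx2 : rr * x < 0.877 := by nlinarith [hb.1, hb.2]
  have key : ∀ t : ℝ, g t x ∈ frontier (closure (g t '' V1 u)) := by
    intro t
    rw [← (g t).image_closure, ← (g t).image_frontier]
    exact ⟨x, hx, rfl⟩
  have e : ∀ t : ℝ, g t x = rr * x + t := fun t => rfl
  refine ⟨?_, ?_, ?_⟩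
  · refine frontier_congr isOpen_Ioo (closure_congr isOpen_Ioo (F1 h)).symm ?_ (key 3)
    rw [e]; constructor <;> linarith
  · refine frontier_congr isOpen_Ioi (closure_congr isOpen_Ioi (F2 h)).symm ?_ (key 4)
    rw [e]; show (3.95 : ℝ) < rr * x + 4; linarith
  · refine frontier_congr isOpen_Ioi (closure_congr isOpen_Ioi (F3 h)).symm ?_ (key 5)
    rw [e]; show (4.9 : ℝ) < rr * x + 5; linarith

lemma frontier_nonempty' (h : IsFixedBy sg u Λ) : (frontier (closure (V1 u))).Nonempty := by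
  rw [nonempty_frontier_iff]
  refine ⟨⟨val wt u 0, subset_closure ⟨0, zero_letter h, rfl⟩⟩, fun h1 => ?_⟩
  have h2 : (7 : ℝ) ∈ closure (V1 u) := by rw [h1]; trivial
  have := (R1_bd h h2).2
  norm_num at this

/-- The Cantor set. -/
noncomputable def Xc (b : ℕ → ℝ) : ℝ := rr * (∑' n, rr ^ n * (3 + b n)) + 5

lemma summable_X {b : ℕ → ℝ} (hb : ∀ n, b n = 0 ∨ b n = 1) :
    Summable fun n => rr ^ n * (3 + b n) := by
  have hr1 := rr_pos
  have hr2 := rr_lt
  refine Summable.of_nonneg_of_le (fun n => ?_) (fun n => ?_)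
    ((summable_geometric_of_lt_one hr1.le (by linarith)).mul_right 4)
  · rcases hb n with h | h <;> rw [h] <;> positivity
  · apply mul_le_mul_of_nonneg_left _ (by positivity)
    rcases hb n with h | h <;> rw [h] <;> norm_num

lemma X_mem (h : IsFixedBy sg u Λ) {b : ℕ → ℝ} (hb : ∀ n, b n = 0 ∨ b n = 1) :
    Xc b ∈ frontier (closure (Vp u)) := by
  have hr1 := rr_pos
  have hr2 := rr_lt
  obtain ⟨y, hy⟩ := frontier_nonempty' h
  have h1 : ∀ (N : ℕ) (y : ℝ), y ∈ frontier (closure (V1 u)) →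
      ∑ n ∈ Finset.range N, rr ^ n * (3 + b n) + rr ^ N * y ∈ frontier (closure (V1 u)) := by
    intro N
    induction N with
    | zero => intro y hy; simpa using hy
    | succ N ih =>
      intro y hy
      have h2 : rr * y + (3 + b N) ∈ frontier (closure (V1 u)) := by
        rcases hb N with h | h'
        · rw [h, add_zero]; exact (frontier_step ‹_› hy).1
        · rw [h']
          have := (frontier_step h hy).2.1
          have e : g 4 y = rr * y + (3 + 1) := by show rr * y + 4 = _; ring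
          rwa [e] at this
      have h3 := ih _ h2
      rw [Finset.sum_range_succ]
      convert h3 using 1
      ring
  have h2 : Tendsto (fun N => ∑ n ∈ Finset.range N, rr ^ n * (3 + b n) + rr ^ N * y) atTop
      (𝓝 (∑' n, rr ^ n * (3 + b n) + 0 * y)) :=
    (summable_X hb).hasSum.tendsto_sum_nat.add
      ((tendsto_pow_atTop_nhds_zero_of_lt_one hr1.le (by linarith)).mul_const y)
  rw [zero_mul, add_zero] at h2
  have h3 := isClosed_frontier.mem_of_tendsto h2 (Eventually.of_forall fun N => h1 N y hy)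
  exact (frontier_step h h3).2.2

end

/-! ### Binary digits -/

/-- The binary digits. -/
noncomputable def bd (y : ℝ) (n : ℕ) : ℝ := ((⌊2 ^ (n + 1) * y⌋ - 2 * ⌊2 ^ n * y⌋ : ℤ) : ℝ)

lemma bd_mem (y : ℝ) (n : ℕ) : bd y n = 0 ∨ bd y n = 1 := by
  have h1 := Int.floor_le (2 ^ n * y)
  have h2 := Int.lt_floor_add_one (2 ^ n * y)
  have h3 : 2 * ⌊2 ^ n * y⌋ ≤ ⌊2 ^ (n + 1) * y⌋ := by
    rw [Int.le_floor]; push_cast; rw [pow_succ]; linarith
  have h4 : ⌊2 ^ (n + 1) * y⌋ < 2 * ⌊2 ^ n * y⌋ + 2 := by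
    rw [Int.floor_lt]; push_cast; rw [pow_succ]; linarith
  unfold bd
  have : ⌊2 ^ (n + 1) * y⌋ - 2 * ⌊2 ^ n * y⌋ = 0 ∨ ⌊2 ^ (n + 1) * y⌋ - 2 * ⌊2 ^ n * y⌋ = 1 := by
    omega
  rcases this with h | h <;> rw [h] <;> simp

lemma floor_eq {y z : ℝ} (hy : y ∈ Ico (0 : ℝ) 1) (hz : z ∈ Ico (0 : ℝ) 1) (n : ℕ)
    (h : ∀ m < n, bd y m = bd z m) : ⌊2 ^ n * y⌋ = ⌊2 ^ n * z⌋ := by
  induction n with
  | zero =>
    simp only [pow_zero, one_mul]
    rw [Int.floor_eq_zero_iff.2 hy, Int.floor_eq_zero_iff.2 hz]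
  | succ n ih =>
    have h1 := ih fun m hm => h m (by omega)
    have h2 := h n (by omega)
    unfold bd at h2
    have h3 : ⌊2 ^ (n + 1) * y⌋ - 2 * ⌊2 ^ n * y⌋ = ⌊2 ^ (n + 1) * z⌋ - 2 * ⌊2 ^ n * z⌋ := by
      exact_mod_cast h2
    omega

/-- The main estimate. -/
lemma holder_est {y z : ℝ} (hy : y ∈ Ico (0 : ℝ) 1) (hz : z ∈ Ico (0 : ℝ) 1) :
    |y - z| ^ 4 ≤ 16 * |Xc (bd y) - Xc (bd z)| := by
  have hr1 := rr_pos
  have hr2 := rr_lt
  have hr3 := rr_gt
  have habs : ∀ n : ℕ, (∀ m < n, bd y m = bd z m) → |y - z| ≤ (1 / 2) ^ n := by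
    intro n hn
    have h1 := Int.abs_sub_lt_one_of_floor_eq_floor (floor_eq hy hz n hn)
    rw [← mul_sub, abs_mul, abs_of_pos (by positivity)] at h1
    rw [one_div, inv_pow, ← one_div, le_div_iff₀ (by positivity)]
    linarith
  by_cases hall : ∀ m, bd y m = bd z m
  · have h1 : |y - z| ≤ 0 := by
      refine ge_of_tendsto (tendsto_pow_atTop_nhds_zero_of_lt_one (r := (1 / 2 : ℝ)) (by norm_num)
        (by norm_num)) (Eventually.of_forall fun n => habs n fun m _ => hall m)
    have h2 : |y - z| = 0 := le_antisymm h1 (abs_nonneg _)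
    rw [h2]
    have h3 := abs_nonneg (Xc (bd y) - Xc (bd z))
    norm_num
  · push Not at hall
    classical
    set n := Nat.find hall with hn
    have hn1 : bd y n ≠ bd z n := Nat.find_spec hall
    have hn2 : ∀ m < n, bd y m = bd z m := fun m hm => by
      have := Nat.find_min hall hm
      push Not at this
      exact this
    have h1 := habs n hn2
    set c : ℕ → ℝ := fun m => bd y m - bd z m with hc
    have hcb : ∀ m, |c m| ≤ 1 := by
      intro m
      rw [hc]
      simp only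
      rcases bd_mem y m with h | h <;> rcases bd_mem z m with h' | h' <;> rw [h, h'] <;> norm_num
    have hcn : |c n| = 1 := by
      rw [hc]
      simp only
      rcases bd_mem y n with h | h <;> rcases bd_mem z n with h' | h' <;> rw [h, h'] at hn1 ⊢ <;>
        first
        | exact absurd rfl hn1
        | norm_num
    have hs : Summable fun m => rr ^ m * c m := by
      refine Summable.of_norm_bounded (summable_geometric_of_lt_one hr1.le (by linarith))
        fun m => ?_
      rw [Real.norm_eq_abs, abs_mul, abs_of_pos (by positivity)]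
      exact mul_le_of_le_one_right (by positivity) (hcb m)
    have hX : Xc (bd y) - Xc (bd z) = rr * ∑' m, rr ^ m * c m := by
      unfold Xc
      have h2 := (summable_X (bd_mem y)).tsum_sub (summable_X (bd_mem z))
      have h3 : (fun m => rr ^ m * c m)
          = fun m => rr ^ m * (3 + bd y m) - rr ^ m * (3 + bd z m) := by
        funext m; rw [hc]; ring
      rw [h3, h2]; ring
    have h2 : ∑' m, rr ^ m * c m = rr ^ n * c n + ∑' m, rr ^ (m + (n + 1)) * c (m + (n + 1)) := by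
      rw [← hs.sum_add_tsum_nat_add (n + 1), Finset.sum_range_succ]
      congr 1
      rw [add_eq_right]
      apply Finset.sum_eq_zero
      intro m hm
      rw [Finset.mem_range] at hm
      rw [hc]
      simp only
      rw [hn2 m hm, sub_self, mul_zero]
    have h3 : |∑' m, rr ^ (m + (n + 1)) * c (m + (n + 1))| ≤ rr ^ (n + 1) * (1 - rr)⁻¹ := by
      rw [← tsum_geometric_of_lt_one hr1.le (by linarith), ← tsum_mul_left, ← Real.norm_eq_abs]
      refine tsum_of_norm_bounded (Summable.hasSum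
        ((summable_geometric_of_lt_one hr1.le (by linarith)).mul_left _)) fun m => ?_
      rw [Real.norm_eq_abs, abs_mul, abs_of_pos (by positivity), pow_add, mul_comm (rr ^ m)]
      exact mul_le_of_le_one_right (by positivity) (hcb _)
    have h4 : (1 - rr)⁻¹ ≤ 1.2 := by
      rw [inv_le_comm₀ (by linarith) (by norm_num)]; norm_num; linarith
    have h5 : rr ^ n * 0.8 ≤ |∑' m, rr ^ m * c m| := by
      rw [h2]
      have h6 : |rr ^ n * c n| = rr ^ n := by
        rw [abs_mul, hcn, mul_one, abs_of_pos (by positivity)]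
      have h7 := abs_sub_abs_le_abs_sub (rr ^ n * c n) (-∑' m, rr ^ (m + (n + 1)) * c (m + (n + 1)))
      rw [abs_neg, sub_neg_eq_add, h6] at h7
      have h8 : rr ^ (n + 1) * (1 - rr)⁻¹ ≤ rr ^ n * 0.2 := by
        rw [pow_succ, mul_assoc]
        apply mul_le_mul_of_nonneg_left _ (by positivity)
        nlinarith
      linarith
    rw [hX, abs_mul, abs_of_pos hr1]
    have h9 : |y - z| ^ 4 ≤ rr ^ n := by
      calc |y - z| ^ 4 ≤ ((1 / 2 : ℝ) ^ n) ^ 4 := pow_le_pow_left₀ (abs_nonneg _) h1 4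
        _ = (1 / 16 : ℝ) ^ n := by rw [← pow_mul, mul_comm, pow_mul]; norm_num
        _ ≤ rr ^ n := pow_le_pow_left₀ (by norm_num) (by linarith) n
    have h10 : 0 < rr ^ n := by positivity
    nlinarith

/-- The Cantor set has dimension at least `1/4`. -/
lemma dimH_cantor : (1 / 4 : ENNReal) ≤ dimH ((fun y => Xc (bd y)) '' Ico (0 : ℝ) 1) := by
  set Φ : ℝ → ℝ := fun y => Xc (bd y) with hΦ
  have hinj : InjOn Φ (Ico (0 : ℝ) 1) := by
    intro y hy z hz h
    have h1 := holder_est hy hz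
    have h2 : Xc (bd y) - Xc (bd z) = 0 := sub_eq_zero.2 h
    rw [h2, abs_zero, mul_zero] at h1
    have h3 : |y - z| ^ 4 = 0 := le_antisymm h1 (by positivity)
    exact sub_eq_zero.1 (abs_eq_zero.1 (pow_eq_zero_iff (by norm_num) |>.1 h3))
  have hH : HolderOnWith 2 (1 / 4) (Function.invFunOn Φ (Ico (0 : ℝ) 1)) (Φ '' Ico (0 : ℝ) 1) := by
    rintro _ ⟨y, hy, rfl⟩ _ ⟨z, hz, rfl⟩
    rw [hinj.leftInvOn_invFunOn hy, hinj.leftInvOn_invFunOn hz, edist_dist, edist_dist,
      Real.dist_eq, Real.dist_eq]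
    have h1 : |y - z| ≤ 2 * |Φ y - Φ z| ^ (1 / 4 : ℝ) := by
      have h2 : |y - z| = (|y - z| ^ 4) ^ (1 / 4 : ℝ) := by
        rw [← Real.rpow_natCast, ← Real.rpow_mul (abs_nonneg _)]; norm_num
      have h3 : (16 * |Φ y - Φ z|) ^ (1 / 4 : ℝ) = 2 * |Φ y - Φ z| ^ (1 / 4 : ℝ) := by
        rw [Real.mul_rpow (by norm_num) (abs_nonneg _)]
        congr 1
        rw [show (16 : ℝ) = 2 ^ (4 : ℝ) by norm_num, ← Real.rpow_mul (by norm_num)]
        norm_num
      rw [h2, ← h3]
      exact Real.rpow_le_rpow (by positivity) (holder_est hy hz) (by norm_num)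
    have h4 : ((2 : NNReal) : ENNReal) * ENNReal.ofReal |Φ y - Φ z| ^ (((1 / 4 : NNReal)) : ℝ)
        = ENNReal.ofReal (2 * |Φ y - Φ z| ^ (1 / 4 : ℝ)) := by
      rw [ENNReal.ofReal_mul (by norm_num), ENNReal.ofReal_rpow_of_nonneg (abs_nonneg _) (by positivity)]
      congr 1
      simp
    rw [h4]
    exact ENNReal.ofReal_le_ofReal h1
  have h1 := hH.dimH_image_le (by norm_num)
  have h2 : Function.invFunOn Φ (Ico (0 : ℝ) 1) '' (Φ '' Ico (0 : ℝ) 1) = Ico (0 : ℝ) 1 := by
    rw [image_image]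
    refine Subset.antisymm ?_ ?_
    · rintro _ ⟨y, hy, rfl⟩
      simp only
      rw [hinj.leftInvOn_invFunOn hy]; exact hy
    · intro y hy
      exact ⟨y, hy, hinj.leftInvOn_invFunOn hy⟩
  have h3 : dimH (Ico (0 : ℝ) 1) = 1 := by
    have := Real.dimH_of_nonempty_interior (E := ℝ) (s := Ico (0 : ℝ) 1)
      (by rw [interior_Ico]; exact ⟨1 / 2, by norm_num⟩)
    simpa using this
  rw [h2, h3] at h1
  have h4 : (((1 / 4 : NNReal)) : ENNReal) ≠ 0 := by norm_num
  rw [ENNReal.le_div_iff_mul_le (Or.inl h4) (Or.inl ENNReal.coe_ne_top)] at h1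
  rw [one_mul] at h1
  refine le_trans (le_of_eq ?_) h1
  rw [ENNReal.coe_div (by norm_num)]
  norm_num

theorem dimH_frontier {u : ℤ → Fin 2} {Λ : ℤ → ℤ} (h : IsFixedBy sg u Λ) :
    1 / 4 ≤ dimH (frontier (closure (Vp u))) := by
  have h1 : (fun y => Xc (bd y)) '' Ico (0 : ℝ) 1 ⊆ frontier (closure (Vp u)) := by
    rintro _ ⟨y, _, rfl⟩
    exact X_mem h (bd_mem y)
  exact dimH_cantor.trans (dimH_mono h1)

end Pool.Agent.Q7.RZ
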